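import Pool.Agent.helper42.NS.Spec

set_option autoImplicit false

namespace Pool.Agent.helper42.NS

open Polynomial Matrix

theorem ODL_dotb {K : Type} [Field K] {t : ℕ} (b : Fin (t + 1) → Bool) (u : Fin (t + 1) → K) :
    dotb b u = (if b 0 then u 0 else 0) + dotb (fun j => b j.succ) (fun j => u j.succ) := by
  unfold dotb
  rw [Fin.sum_univ_succ]

/-- the part of `E` with first coordinate `0`, without the first coordinate -/
noncomputable def ODL_T {K : Type} [Field K] {t : ℕ} (E : Submodule K (Fin (t + 1) → K)) :
    Submodule K (Fin t → K) :=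
  (E ⊓ LinearMap.ker (LinearMap.proj (R := K) (φ := fun _ : Fin (t + 1) => K) 0)).map
    (LinearMap.funLeft K K Fin.succ)

theorem ODL_mem {K : Type} [Field K] {t : ℕ} (E : Submodule K (Fin (t + 1) → K))
    (u : Fin t → K) : u ∈ ODL_T E ↔ ∃ v ∈ E, v 0 = 0 ∧ (fun j => v (Fin.succ j)) = u := by
  unfold ODL_T
  rw [Submodule.mem_map]
  constructor
  · rintro ⟨v, ⟨hv, hv0⟩, rfl⟩
    exact ⟨v, hv, hv0, rfl⟩
  · rintro ⟨v, hv, hv0, rfl⟩
    exact ⟨v, ⟨hv, hv0⟩, rfl⟩

theorem ODL_finrank {K : Type} [Field K] {t : ℕ} (E : Submodule K (Fin (t + 1) → K)) :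
    Module.finrank K (ODL_T E) = Module.finrank K
      (E ⊓ LinearMap.ker (LinearMap.proj (R := K) (φ := fun _ : Fin (t + 1) => K) 0) :
        Submodule K (Fin (t + 1) → K)) := by
  unfold ODL_T
  symm
  apply LinearEquiv.finrank_eq
  refine LinearEquiv.ofBijective
    ((LinearMap.funLeft K K Fin.succ).submoduleMap _) ⟨?_, ?_⟩
  · intro x y hxy
    apply Subtype.ext
    funext j
    have h1 := congrArg Subtype.val hxy
    refine Fin.cases ?_ (fun j => ?_) j
    · have hx := x.2.2
      have hy := y.2.2
      have hx' : (x : Fin (t + 1) → K) 0 = 0 := hx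
      have hy' : (y : Fin (t + 1) → K) 0 = 0 := hy
      exact hx'.trans hy'.symm
    · exact congrFun h1 j
  · exact LinearMap.submoduleMap_surjective _ _

theorem ODL_le {K : Type} [Field K] {t : ℕ} (E : Submodule K (Fin (t + 1) → K)) :
    Module.finrank K E ≤ Module.finrank K (ODL_T E) + 1 := by
  rw [ODL_finrank]
  set f : E →ₗ[K] K := (LinearMap.proj (R := K) (φ := fun _ : Fin (t + 1) => K) 0).domRestrict E
    with hf
  have h1 := LinearMap.finrank_range_add_finrank_ker f
  have h2 : Module.finrank K (LinearMap.range f) ≤ 1 := by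
    have := Submodule.finrank_le (LinearMap.range f)
    rwa [Module.finrank_self] at this
  have h3 : Module.finrank K (LinearMap.ker f) = Module.finrank K
      (E ⊓ LinearMap.ker (LinearMap.proj (R := K) (φ := fun _ : Fin (t + 1) => K) 0) :
        Submodule K (Fin (t + 1) → K)) := by
    apply LinearEquiv.finrank_eq
    refine LinearEquiv.ofBijective
      (LinearMap.codRestrict _ (E.subtype.comp (LinearMap.ker f).subtype) ?_) ⟨?_, ?_⟩
    · intro x
      exact ⟨x.1.2, x.2⟩
    · intro x y hxy
      apply Subtype.ext
      apply Subtype.ext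
      have h5 := Subtype.ext_iff.1 hxy
      exact h5
    · rintro ⟨v, hv, hv0⟩
      exact ⟨⟨⟨v, hv⟩, hv0⟩, rfl⟩
  omega

theorem ODL : ODL_stmt := by
  intro K _ t
  induction t with
  | zero =>
    intro E
    have h1 : Module.finrank K E = 0 := by
      have := Submodule.finrank_le E
      rw [Module.finrank_fin_fun] at this
      omega
    rw [h1, pow_zero, mul_one]
    have h2 := Set.ncard_le_card {b : Fin 0 → Bool | ∀ u ∈ E, dotb b u = 0}
    rw [Nat.card_eq_fintype_card] at h2
    simpa using h2
  | succ t ih =>
    intro E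
    have hi := ih (ODL_T E)
    set A : Set (Fin (t + 1) → Bool) := {b | ∀ u ∈ E, dotb b u = 0} with hA
    set B : Set (Fin t → Bool) := {b | ∀ u ∈ ODL_T E, dotb b u = 0} with hB
    have hAB : ∀ b ∈ A, (fun j : Fin t => b j.succ) ∈ B := by
      intro b hb u hu
      obtain ⟨v, hv, hv0, rfl⟩ := (ODL_mem E u).1 hu
      have h1 := hb v hv
      rw [ODL_dotb, hv0] at h1
      simpa using h1
    by_cases hE : ∀ u ∈ E, u 0 = 0
    · have h1 : Module.finrank K (ODL_T E) = Module.finrank K E := by
        rw [ODL_finrank]
        have h2 : (E ⊓ LinearMap.ker (LinearMap.proj (R := K)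
            (φ := fun _ : Fin (t + 1) => K) 0) : Submodule K (Fin (t + 1) → K)) = E := by
          rw [inf_eq_left]
          intro u hu
          exact hE u hu
        rw [h2]
      have h3 : A.ncard ≤ 2 * B.ncard := by
        have h4 : A.ncard ≤ ((Set.univ : Set Bool) ×ˢ B).ncard := by
          apply Set.ncard_le_ncard_of_injOn (fun b => (b 0, fun j : Fin t => b j.succ))
          · intro b hb
            exact ⟨Set.mem_univ _, hAB b hb⟩
          · intro b _ b' _ h
            have h5 := congrArg Prod.fst h
            have h6 := congrArg Prod.snd h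
            funext j
            refine Fin.cases h5 (fun j => ?_) j
            exact congrFun h6 j
        rwa [Set.ncard_prod, Set.ncard_univ, Nat.card_eq_fintype_card, Fintype.card_bool] at h4
      rw [← h1, pow_succ]
      calc A.ncard * 2 ^ Module.finrank K (ODL_T E)
          ≤ (2 * B.ncard) * 2 ^ Module.finrank K (ODL_T E) := Nat.mul_le_mul_right _ h3
        _ = (B.ncard * 2 ^ Module.finrank K (ODL_T E)) * 2 := by ring
        _ ≤ 2 ^ t * 2 := Nat.mul_le_mul_right _ hi
    · push Not at hE
      obtain ⟨w, hw, hw0⟩ := hE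
      have h3 : A.ncard ≤ B.ncard := by
        apply Set.ncard_le_ncard_of_injOn (fun b => fun j : Fin t => b j.succ)
        · intro b hb
          exact hAB b hb
        · intro b hb b' hb' h
          have h6 : (fun j : Fin t => b j.succ) = fun j => b' j.succ := h
          have h1 := hb w hw
          have h2 := hb' w hw
          rw [ODL_dotb] at h1 h2
          rw [h6] at h1
          have h7 : (if b 0 then w 0 else 0) = if b' 0 then w 0 else (0 : K) := by
            have := h1.trans h2.symm
            exact add_right_cancel this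
          funext j
          refine Fin.cases ?_ (fun j => ?_) j
          · cases hb0 : b 0 <;> cases hb0' : b' 0
            · rfl
            · rw [hb0, hb0'] at h7
              simp only [Bool.false_eq_true, if_false, if_true] at h7
              exact absurd h7.symm hw0
            · rw [hb0, hb0'] at h7
              simp only [Bool.false_eq_true, if_false, if_true] at h7
              exact absurd h7 hw0
            · rfl
          · exact congrFun h6 j
      have h4 := ODL_le E
      calc A.ncard * 2 ^ Module.finrank K E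
          ≤ B.ncard * 2 ^ (Module.finrank K (ODL_T E) + 1) :=
            Nat.mul_le_mul h3 (Nat.pow_le_pow_right (by norm_num) h4)
        _ = (B.ncard * 2 ^ Module.finrank K (ODL_T E)) * 2 := by ring
        _ ≤ 2 ^ t * 2 := Nat.mul_le_mul_right _ hi
        _ = 2 ^ (t + 1) := by ring

end Pool.Agent.helper42.NS
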